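import Pool.Agent.Q307.Yam.Four

set_option autoImplicit false
set_option linter.all false

/-! The statement for the free group topology. -/

open Topology Filter

namespace Pool.Agent.Q307.Yam

/-- the free group topology -/
noncomputable def freeTop (X : Type*) [TopologicalSpace X] : GroupTopology (FreeGroup X) :=
  sInf {t : GroupTopology (FreeGroup X) |
    @Continuous X (FreeGroup X) _ t.toTopologicalSpace FreeGroup.of}

theorem continuous_of (X : Type*) [TopologicalSpace X] :
    @Continuous X (FreeGroup X) _ (freeTop X).toTopologicalSpace FreeGroup.of := by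
  unfold freeTop
  rw [GroupTopology.toTopologicalSpace_sInf]
  rw [continuous_sInf_rng]
  rintro _ ⟨t, ht, rfl⟩
  exact ht

theorem freeTop_le {X : Type*} [TopologicalSpace X] (t : GroupTopology (FreeGroup X))
    (ht : @Continuous X (FreeGroup X) _ t.toTopologicalSpace FreeGroup.of) :
    (freeTop X).toTopologicalSpace ≤ t.toTopologicalSpace := by
  have h : freeTop X ≤ t := sInf_le ht
  exact h

/-- Yamada's statement -/
theorem fu (X : Type*) [MetricSpace X] (hK : IsCompact (K X)) :
    @FrechetUrysohnSpace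
      {w : FreeGroup X // ∃ L : List (X × Bool), L.length ≤ 4 ∧ FreeGroup.mk L = w}
      (TopologicalSpace.induced Subtype.val (freeTop X).toTopologicalSpace) := by
  letI : TopologicalSpace (FreeGroup X) := (freeTop X).toTopologicalSpace
  haveI : IsTopologicalGroup (FreeGroup X) := (freeTop X).toIsTopologicalGroup
  show FrechetUrysohnSpace
      {w : FreeGroup X // ∃ L : List (X × Bool), L.length ≤ 4 ∧ FreeGroup.mk L = w}
  have hof : Continuous (FreeGroup.of : X → FreeGroup X) := continuous_of X
  have hmin : ∀ Φ : X → ℝ, (∀ x, 1 ≤ Φ x) → (∀ x, ∀ᶠ y in 𝓝 x, Φ y = Φ x) →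
      ∀ (g : FreeGroup X) (ε : ℝ), 0 < ε → {h | g⁻¹ * h ∈ B D Φ ε} ∈ 𝓝 g := by
    intro Φ hΦ1 hΦ2 g ε hε
    have ok := ok_D hΦ1
    have h1 := nhds_gt ok g hε
    have h2 := of_continuous ok (fun x ε hε => D_near x hε) hΦ2
    exact (nhds_mono (freeTop_le _ h2)) h1
  refine ⟨fun A g hg => ?_⟩
  have hg' : (g : FreeGroup X) ∈ closure (Subtype.val '' A) := closure_subtype.1 hg
  obtain ⟨u, hu, hlim⟩ := level4 hK hof hmin (A := Subtype.val '' A)
    (by rintro _ ⟨w, _, rfl⟩; exact w.2) hg'
  choose v hvA hv using hu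
  refine ⟨v, hvA, ?_⟩
  rw [tendsto_subtype_rng]
  exact hlim.congr (fun n => (hv n).symm)

end Pool.Agent.Q307.Yam
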