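import Pool.Agent.Q307.Yam.Main

set_option autoImplicit false
set_option linter.all false

/-! The level 4 is Fréchet-Urysohn. -/

open Topology Filter

noncomputable section

namespace Pool.Agent.Q307.Yam

theorem M.four {X : Type*} {d : X → X → ℝ} {Φ : X → ℝ} (ok : Ok d Φ) {L : List (X × Bool)} {c : ℝ}
    (h : M d Φ L c) (hl : L.length ≤ 4) : L = [] ∨
      (∃ (p q : X) (b : Bool), L = [(p, b), (q, !b)] ∧ d p q ≤ c) ∨
      (∃ (p q : X) (b : Bool) (p' q' : X) (b' : Bool),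
        L = [(p, b), (q, !b), (p', b'), (q', !b')] ∧ d p q ≤ c ∧ d p' q' ≤ c) ∨
      (∃ (x y : X) (b : Bool) (p q : X) (b' : Bool),
        L = [(x, b), (p, b'), (q, !b'), (y, !b)] ∧ d x y ≤ c ∧ Φ x * d p q ≤ c) := by
  rcases L with _ | ⟨⟨x, b⟩, L⟩
  · exact Or.inl rfl
  right
  obtain ⟨y, U, V, c1, e, hxy, hU, hV, rfl, rfl⟩ := h.inv_cons
  have hU0 := hU.nonneg ok
  have hV0 := hV.nonneg ok
  have h1 := ok.one x
  have h2 := ok.nonneg x y
  have h3 : 0 ≤ Φ x * c1 := by positivity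
  have hlen : U.length + V.length ≤ 2 := by
    simp at hl; omega
  rcases M.small ok hU (by omega) with rfl | ⟨p, q, b', rfl, hpq⟩
  · rcases M.small ok hV (by omega) with rfl | ⟨p, q, b', rfl, hpq⟩
    · left
      exact ⟨x, y, b, rfl, by linarith⟩
    · right; left
      exact ⟨x, y, b, p, q, b', rfl, by linarith, by linarith⟩
  · have hV1 : V.length = 0 := by simp at hlen; simp [hlen]
    rw [List.length_eq_zero_iff] at hV1
    subst hV1
    right; right
    refine ⟨x, y, b, p, q, b', rfl, by linarith, ?_⟩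
    have : Φ x * d p q ≤ Φ x * c1 := mul_le_mul_of_nonneg_left hpq (by linarith)
    linarith

variable {X : Type*} [MetricSpace X]

/-- good words -/
def Good (n : ℕ) (w : FreeGroup X) : Prop :=
  (∃ (p q : X) (b : Bool), w = FreeGroup.mk [(p, b), (q, !b)] ∧ D p q < 1 / ((n : ℝ) + 1)) ∨
  (∃ (p q : X) (b : Bool) (p' q' : X) (b' : Bool),
    w = FreeGroup.mk [(p, b), (q, !b), (p', b'), (q', !b')] ∧ D p q < 1 / ((n : ℝ) + 1) ∧
      D p' q' < 1 / ((n : ℝ) + 1)) ∨
  (∃ (x y : X) (b : Bool) (p q : X) (b' : Bool),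
    w = FreeGroup.mk [(x, b), (p, b'), (q, !b'), (y, !b)] ∧ δ x < 1 / ((n : ℝ) + 1) ∧
      D x y < 1 / ((n : ℝ) + 1) ∧ D p q < 1 / ((n : ℝ) + 1))

/-- words conjugated by a letter -/
def Bad (x : X) (b : Bool) (n : ℕ) (w : FreeGroup X) : Prop :=
  ∃ (p q : X) (b' : Bool), w = FreeGroup.mk [(x, b), (p, b'), (q, !b'), (x, !b)] ∧
    D p q < 1 / ((n : ℝ) + 1)

theorem inv_mono {m n : ℕ} (h : m ≤ n) : (1 : ℝ) / ((n : ℝ) + 1) ≤ 1 / ((m : ℝ) + 1) :=
  one_div_le_one_div_of_le (by positivity) (by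
    have : (m : ℝ) ≤ (n : ℝ) := by exact_mod_cast h
    linarith)

variable [TopologicalSpace (FreeGroup X)] [IsTopologicalGroup (FreeGroup X)]

theorem good_tendsto (hK : IsCompact (K X)) (hof : Continuous (FreeGroup.of : X → FreeGroup X))
    {w : ℕ → FreeGroup X} (h : ∀ n, Good n (w n)) : Tendsto w atTop (𝓝 1) := by
  intro U hU
  obtain ⟨V, hV, hVU⟩ := exists_nhds_one_split hU
  obtain ⟨n1, h1⟩ := pair_nhds' hK hof hU
  obtain ⟨n2, h2⟩ := pair_nhds' hK hof hV
  have h3 : ∀ c : Bool × Bool, ∃ n : ℕ, ∀ x y p q : X, δ x < 1 / ((n : ℝ) + 1) →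
      D x y < 1 / ((n : ℝ) + 1) → D p q < 1 / ((n : ℝ) + 1) →
      FreeGroup.mk [(x, c.1), (p, c.2), (q, !c.2), (y, !c.1)] ∈ U :=
    fun c => conj_nhds hK hof hU c.1 c.2
  choose n3 h3 using h3
  rw [mem_map]
  have h4 : ∀ᶠ n in atTop, ∀ c : Bool × Bool, n3 c ≤ n :=
    eventually_all.2 fun c => eventually_ge_atTop (n3 c)
  filter_upwards [eventually_ge_atTop n1, eventually_ge_atTop n2, h4] with n m1 m2 m3
  show w n ∈ U
  rcases h n with ⟨p, q, b, hw, hd⟩ | ⟨p, q, b, p', q', b', hw, hd, hd'⟩ |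
    ⟨x, y, b, p, q, b', hw, hx, hxy, hpq⟩
  · rw [hw]; exact h1 _ _ _ (lt_of_lt_of_le hd (inv_mono m1))
  · rw [hw, show [(p, b), (q, !b), (p', b'), (q', !b')] = [(p, b), (q, !b)] ++ [(p', b'), (q', !b')]
      from rfl, mk_split]
    exact hVU _ (h2 _ _ _ (lt_of_lt_of_le hd (inv_mono m2))) _
      (h2 _ _ _ (lt_of_lt_of_le hd' (inv_mono m2)))
  · rw [hw]
    exact h3 (b, b') _ _ _ _ (lt_of_lt_of_le hx (inv_mono (m3 _)))
      (lt_of_lt_of_le hxy (inv_mono (m3 _))) (lt_of_lt_of_le hpq (inv_mono (m3 _)))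

theorem bad_tendsto (hK : IsCompact (K X)) (hof : Continuous (FreeGroup.of : X → FreeGroup X))
    {w : ℕ → FreeGroup X} {x : X} {b : Bool} (h : ∀ n, Bad x b n (w n)) :
    Tendsto w atTop (𝓝 1) := by
  choose p q b' hw hd using h
  have h1 : Tendsto (fun n => FreeGroup.mk [(p n, b' n), (q n, !(b' n))]) atTop (𝓝 1) :=
    pair_tendsto hK hof (fun n : ℕ => Or.inr ⟨p n, q n, b' n, rfl, hd n⟩)
  have h2 := (tendsto_const_nhds (x := FreeGroup.mk [(x, b)]) (f := (atTop : Filter ℕ))).mul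
    (h1.mul (tendsto_const_nhds (x := FreeGroup.mk [(x, !b)]) (f := (atTop : Filter ℕ))))
  have h3 : FreeGroup.mk [(x, b)] * (1 * FreeGroup.mk [(x, !b)]) = 1 := by
    rw [one_mul, ← mk_split]; exact mk_pair_self x b
  rw [h3] at h2
  refine h2.congr (fun n => ?_)
  rw [hw n, ← mk_split, ← mk_split]
  rfl

/-- the core statement -/
theorem level4 (hK : IsCompact (K X)) (hof : Continuous (FreeGroup.of : X → FreeGroup X))
    (hmin : ∀ Φ : X → ℝ, (∀ x, 1 ≤ Φ x) → (∀ x, ∀ᶠ y in 𝓝 x, Φ y = Φ x) →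
      ∀ (g : FreeGroup X) (ε : ℝ), 0 < ε → {h | g⁻¹ * h ∈ B D Φ ε} ∈ 𝓝 g)
    {A : Set (FreeGroup X)} (hA : ∀ w ∈ A, ∃ L : List (X × Bool), L.length ≤ 4 ∧ FreeGroup.mk L = w)
    {g : FreeGroup X} (hg : g ∈ closure A) :
    ∃ u : ℕ → FreeGroup X, (∀ n, u n ∈ A) ∧ Tendsto u atTop (𝓝 g) := by
  classical
  by_cases hg1 : g = 1
  · subst hg1
    by_cases h1 : (1 : FreeGroup X) ∈ A
    · exact ⟨fun _ => 1, fun _ => h1, tendsto_const_nhds⟩
    by_cases h2 : ∀ n, ∃ w ∈ A, Good n w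
    · choose w hw hG using h2
      exact ⟨w, hw, good_tendsto hK hof hG⟩
    by_cases h3 : ∃ (x : X) (b : Bool), ∀ n, ∃ w ∈ A, Bad x b n w
    · obtain ⟨x, b, h3⟩ := h3
      choose w hw hG using h3
      exact ⟨w, hw, bad_tendsto hK hof hG⟩
    exfalso
    push Not at h2 h3
    obtain ⟨m, hm⟩ := h2
    choose N hN using h3
    set Φ : X → ℝ := fun x => if δ x < 1 / ((m : ℝ) + 1) then 1 else
      1 + (N x true : ℝ) + (N x false : ℝ) with hΦ
    have hm0 : (0 : ℝ) < 1 / ((m : ℝ) + 1) := by positivity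
    have hΦ1 : ∀ x, 1 ≤ Φ x := by
      intro x
      rw [hΦ]; simp only
      split_ifs
      · exact le_refl _
      · have : (0 : ℝ) ≤ (N x true : ℝ) := Nat.cast_nonneg _
        have : (0 : ℝ) ≤ (N x false : ℝ) := Nat.cast_nonneg _
        linarith
    have hΦ2 : ∀ x, ∀ᶠ y in 𝓝 x, Φ y = Φ x := by
      intro x
      by_cases hx : x ∈ K X
      · have h4 := δ_near hx hm0
        have h5 := h4.self_of_nhds
        filter_upwards [h4] with y hy
        rw [hΦ]; simp only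
        rw [if_pos hy, if_pos h5]
      · have : IsOpen ({x} : Set X) := not_not.1 hx
        filter_upwards [this.mem_nhds rfl] with y hy
        rw [Set.mem_singleton_iff.1 hy]
    have ok := ok_D hΦ1
    obtain ⟨w, hwB, hwA⟩ := mem_closure_iff_nhds.1 hg _ (hmin Φ hΦ1 hΦ2 1 _ hm0)
    simp only [inv_one, one_mul, Set.mem_setOf_eq] at hwB
    obtain ⟨L, hL, rfl⟩ := hA w hwA
    obtain ⟨c, hM, hc⟩ := (mem_B ok).1 hwB
    rcases hM.four ok hL with rfl | ⟨p, q, b, rfl, hd⟩ | ⟨p, q, b, p', q', b', rfl, hd, hd'⟩ |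
      ⟨x, y, b, p, q, b', rfl, hxy, hpq⟩
    · exact h1 hwA
    · exact hm _ hwA (Or.inl ⟨p, q, b, rfl, lt_of_le_of_lt hd hc⟩)
    · exact hm _ hwA (Or.inr (Or.inl ⟨p, q, b, p', q', b', rfl, lt_of_le_of_lt hd hc,
        lt_of_le_of_lt hd' hc⟩))
    · by_cases hδ : δ x < 1 / ((m : ℝ) + 1)
      · refine hm _ hwA (Or.inr (Or.inr ⟨x, y, b, p, q, b', rfl, hδ, lt_of_le_of_lt hxy hc, ?_⟩))
        have h6 : Φ x = 1 := by rw [hΦ]; simp only; rw [if_pos hδ]
        rw [h6, one_mul] at hpq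
        exact lt_of_le_of_lt hpq hc
      · have hxy' : x = y := by
          by_contra hne
          rw [D_ne hne] at hxy
          have := δ_nonneg y
          have := dist_nonneg (x := x) (y := y)
          apply hδ
          linarith
        subst hxy'
        apply hN x b _ hwA
        refine ⟨p, q, b', rfl, ?_⟩
        have h6 : Φ x = 1 + (N x true : ℝ) + (N x false : ℝ) := by
          rw [hΦ]; simp only; rw [if_neg hδ]
        have h7 : (N x b : ℝ) + 1 ≤ Φ x := by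
          rw [h6]
          have : (0 : ℝ) ≤ (N x true : ℝ) := Nat.cast_nonneg _
          have : (0 : ℝ) ≤ (N x false : ℝ) := Nat.cast_nonneg _
          cases b <;> linarith
        have h8 : (1 : ℝ) / ((m : ℝ) + 1) ≤ 1 := by
          rw [div_le_one (by positivity)]
          have : (0 : ℝ) ≤ (m : ℝ) := Nat.cast_nonneg _
          linarith
        have h9 : ((N x b : ℝ) + 1) * D p q < 1 := by
          have : ((N x b : ℝ) + 1) * D p q ≤ Φ x * D p q :=
            mul_le_mul_of_nonneg_right h7 (ok.nonneg p q)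
          linarith
        rw [lt_div_iff₀ (by positivity)]
        linarith
  · -- the nontrivial elements
    set S := (g⁻¹).toWord with hS
    have hgS : FreeGroup.mk S = g⁻¹ := FreeGroup.mk_toWord
    have hgS' : (FreeGroup.mk S)⁻¹ = g := by rw [hgS, inv_inv]
    have hSne : S ≠ [] := by
      intro h
      rw [h] at hgS
      apply hg1
      rw [← hgS', h]
      exact inv_one
    have hSlen : 1 ≤ S.length := by
      have := List.length_pos_iff.2 hSne
      omega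
    obtain ⟨ε0, hε0, hsep⟩ := exists_sep (d := D) (fun x y h => D_pos h) S
      (FreeGroup.isReduced_toWord)
    have hΦ1 : ∀ x : X, (1 : ℝ) ≤ (fun _ : X => (1 : ℝ)) x := fun _ => le_refl _
    have ok := ok_D hΦ1
    have key : ∀ n : ℕ, ∃ L : List (X × Bool), FreeGroup.mk L ∈ A ∧
        Near D (1 / ((n : ℝ) + 1)) S L := by
      intro n
      have hε : 0 < min (1 / ((n : ℝ) + 1)) ε0 := lt_min (by positivity) hε0
      obtain ⟨w, hwB, hwA⟩ := mem_closure_iff_nhds.1 hg _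
        (hmin _ hΦ1 (fun x => Eventually.of_forall fun _ => rfl) g _ hε)
      obtain ⟨L, hL, rfl⟩ := hA w hwA
      refine ⟨L, hwA, ?_⟩
      have hwB' : FreeGroup.mk (S ++ L) ∈ B D (fun _ : X => (1 : ℝ))
          (min (1 / ((n : ℝ) + 1)) ε0) := by
        rw [mk_split, hgS]; exact hwB
      obtain ⟨c, hM, hc⟩ := (mem_B ok).1 hwB'
      have h1 := near_of_M ok S L c hM hc (hsep.mono (min_le_right _ _)) (by omega)
      exact h1.mono (min_le_left _ _)
    choose L hLA hLN using key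
    refine ⟨fun n => FreeGroup.mk (L n), hLA, ?_⟩
    have := near_tendsto hK hof S L hLN
    rwa [hgS'] at this

end Pool.Agent.Q307.Yam
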