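import Mathlib
import Pool.Agent.Q307.Yam.FU

set_option autoImplicit false

/-! The theorem on `F_4(X)` for metrizable `X` with compact derived set, in the wording of the frozen
statement S13155 (MP_5008c3_gt). Not handed in: the result is probably contained in
K. Yamada, Frechet-Urysohn subspaces of free topological groups, Topology Appl. 210 (2016), 81-89. -/

namespace Pool.Agent.Q307.Yam.FrozenForm

/-- For every metrizable space X whose non-isolated points form a compact set, the subspace of the free topological group on X of elements of reduced length at most 4 is Fréchet–Urysohn. -/
theorem result :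
    ∀ (X : Type) [τ : TopologicalSpace X] [TopologicalSpace.MetrizableSpace X],
      IsCompact {x : X | ¬ IsOpen ({x} : Set X)} →
      @FrechetUrysohnSpace
        {w : FreeGroup X // ∃ L : List (X × Bool), L.length ≤ 4 ∧ FreeGroup.mk L = w}
        (TopologicalSpace.induced Subtype.val
          (sInf {t : GroupTopology (FreeGroup X) |
            @Continuous X (FreeGroup X) τ t.toTopologicalSpace FreeGroup.of}).toTopologicalSpace) := by
  intro X τ _ hK
  letI : MetricSpace X := TopologicalSpace.metrizableSpaceMetric X
  exact Pool.Agent.Q307.Yam.fu X hK

end Pool.Agent.Q307.Yam.FrozenForm
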