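import Pool.Agent.Q307.Yam.FU

set_option autoImplicit false
set_option linter.all false

/-! From Fréchet-Urysohn to the k_R property. -/

open Topology Filter

namespace Pool.Agent.Q307.Yam

theorem kR_of_FU {Y : Type*} [TopologicalSpace Y] [FrechetUrysohnSpace Y] (f : Y → ℝ)
    (hf : ∀ C : Set Y, IsCompact C → ContinuousOn f C) : Continuous f := by
  apply SeqContinuous.continuous
  intro u a hu
  have hc : IsCompact (insert a (Set.range u)) := hu.isCompact_insert_range
  have h1 : ContinuousWithinAt f (insert a (Set.range u)) a := hf _ hc a (Set.mem_insert _ _)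
  have h2 : Tendsto u atTop (𝓝[insert a (Set.range u)] a) :=
    tendsto_nhdsWithin_iff.2 ⟨hu, Eventually.of_forall fun n => Set.mem_insert_of_mem _ ⟨n, rfl⟩⟩
  exact h1.tendsto.comp h2

end Pool.Agent.Q307.Yam
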