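import Mathlib
import Pool.Agent.Q307.Yam.KR

set_option autoImplicit false

/-! MP_b47bfe_gt, Q1: for metrizable `X` with compact set of non-isolated points, `F_4(X)` is a
`k_R`-space. -/

namespace Pool.Agent.Q307.Yam.LevelFourKR

/-- The topology of the free topological group on `X` (in the sense of Markov), on the abstract
free group: the finest group topology which makes the inclusion of the generators continuous. -/
noncomputable def freeTopology (X : Type*) [TopologicalSpace X] : GroupTopology (FreeGroup X) :=
  sInf {t : GroupTopology (FreeGroup X) |
    @Continuous X (FreeGroup X) _ t.toTopologicalSpace FreeGroup.of}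

/-- `F_n(X)`: the elements of the free group of reduced length at most `n`. -/
def Level (n : ℕ) (X : Type*) : Type _ :=
  {w : FreeGroup X // ∃ L : List (X × Bool), L.length ≤ n ∧ FreeGroup.mk L = w}

/-- `F_n(X)` carries the subspace topology. -/
noncomputable instance (n : ℕ) (X : Type*) [TopologicalSpace X] : TopologicalSpace (Level n X) :=
  TopologicalSpace.induced Subtype.val (freeTopology X).toTopologicalSpace

/-- `Y` is a `k_R`-space: a real valued function which is continuous on every compact subset is
continuous. -/
def IsKR (Y : Type*) [TopologicalSpace Y] : Prop :=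
  ∀ f : Y → ℝ, (∀ C : Set Y, IsCompact C → ContinuousOn f C) → Continuous f

theorem result : ∀ (X : Type*) [TopologicalSpace X] [TopologicalSpace.MetrizableSpace X],
    IsCompact {x : X | ¬ IsOpen ({x} : Set X)} → IsKR (Level 4 X) := by
  intro X τ _ hK
  letI : MetricSpace X := TopologicalSpace.metrizableSpaceMetric X
  haveI : FrechetUrysohnSpace (Level 4 X) := Pool.Agent.Q307.Yam.fu X hK
  intro f hf
  exact Pool.Agent.Q307.Yam.kR_of_FU f hf

end Pool.Agent.Q307.Yam.LevelFourKR
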