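import Pool.Agent.Q307.Yam.Near

set_option autoImplicit false
set_option linter.all false

/-! The level 4 of the free topological group. -/

open Topology Filter

noncomputable section

namespace Pool.Agent.Q307.Yam

variable {X : Type*} [MetricSpace X]

/-- the non-isolated points -/
def K (X : Type*) [TopologicalSpace X] : Set X := {x : X | ¬ IsOpen ({x} : Set X)}

open Classical in
/-- distance to the non-isolated points -/
def δ (x : X) : ℝ := if K X = ∅ then 1 else Metric.infDist x (K X)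

open Classical in
/-- the modified distance -/
def D (x y : X) : ℝ := if x = y then 0 else dist x y + δ x + δ y

theorem δ_nonneg (x : X) : 0 ≤ δ x := by
  unfold δ; split_ifs
  · exact zero_le_one
  · exact Metric.infDist_nonneg

theorem δ_pos (hK : IsCompact (K X)) {x : X} (hx : x ∉ K X) : 0 < δ x := by
  unfold δ; split_ifs with h
  · exact zero_lt_one
  · exact (hK.isClosed.notMem_iff_infDist_pos (Set.nonempty_iff_ne_empty.2 h)).1 hx

theorem δ_near {x : X} (hx : x ∈ K X) {ε : ℝ} (hε : 0 < ε) : ∀ᶠ y in 𝓝 x, δ y < ε := by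
  have hne : K X ≠ ∅ := by rintro h; rw [h] at hx; exact hx
  have h0 : (δ : X → ℝ) = fun y => Metric.infDist y (K X) := by
    funext y; unfold δ; rw [if_neg hne]
  have h1 : δ x = 0 := by rw [h0]; exact Metric.infDist_zero_of_mem hx
  have h2 : ContinuousAt (δ : X → ℝ) x := by
    rw [h0]; exact (Metric.continuous_infDist_pt (K X)).continuousAt
  have h3 : Tendsto δ (𝓝 x) (𝓝 (0 : ℝ)) := by rw [← h1]; exact h2
  exact h3.eventually (gt_mem_nhds hε)

theorem D_self (x : X) : D x x = 0 := by simp [D]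
theorem D_ne {x y : X} (h : x ≠ y) : D x y = dist x y + δ x + δ y := by simp [D, h]

theorem dist_le_D (x y : X) : dist x y ≤ D x y := by
  by_cases h : x = y
  · subst h; simp [D]
  · rw [D_ne h]
    have := δ_nonneg x
    have := δ_nonneg y
    linarith

theorem D_pos {x y : X} (h : x ≠ y) : 0 < D x y :=
  lt_of_lt_of_le (dist_pos.2 h) (dist_le_D x y)

theorem ok_D {Φ : X → ℝ} (hΦ : ∀ x, 1 ≤ Φ x) : Ok (D : X → X → ℝ) Φ where
  self := D_self
  nonneg x y := dist_nonneg.trans (dist_le_D x y)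
  symm x y := by
    by_cases h : x = y
    · rw [h]
    · rw [D_ne h, D_ne (Ne.symm h), dist_comm]; ring
  tri x y z := by
    by_cases hxz : x = z
    · subst hxz
      rw [D_self]
      exact add_nonneg (dist_nonneg.trans (dist_le_D x y)) (dist_nonneg.trans (dist_le_D y x))
    by_cases hxy : x = y
    · subst hxy; rw [D_self, zero_add]
    by_cases hyz : y = z
    · subst hyz; rw [D_self, add_zero]
    rw [D_ne hxz, D_ne hxy, D_ne hyz]
    have := dist_triangle x y z
    have := δ_nonneg y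
    linarith
  one := hΦ

theorem D_near (x : X) {ε : ℝ} (hε : 0 < ε) : ∀ᶠ y in 𝓝 x, D x y < ε := by
  by_cases hx : x ∈ K X
  · have h1 := δ_near hx (half_pos hε)
    have h2 : ∀ᶠ y in 𝓝 x, dist x y < ε / 2 := by
      have := Metric.ball_mem_nhds x (half_pos hε)
      filter_upwards [this] with y hy
      rw [dist_comm]; exact hy
    have hne : K X ≠ ∅ := by rintro h; rw [h] at hx; exact hx
    have h0 : δ x = 0 := by
      unfold δ; rw [if_neg hne]; exact Metric.infDist_zero_of_mem hx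
    filter_upwards [h1, h2] with y hy1 hy2
    by_cases h : x = y
    · subst h; rw [D_self]; exact hε
    · rw [D_ne h, h0]; linarith
  · have : IsOpen ({x} : Set X) := not_not.1 hx
    filter_upwards [this.mem_nhds rfl] with y hy
    rw [Set.mem_singleton_iff.1 hy, D_self]; exact hε

/-- sequences approaching the non-isolated points subconverge -/
theorem extract (hK : IsCompact (K X)) (x : ℕ → X) (h : ∀ n : ℕ, δ (x n) < 1 / ((n : ℝ) + 1)) :
    ∃ a : X, ∃ φ : ℕ → ℕ, StrictMono φ ∧ Tendsto (x ∘ φ) atTop (𝓝 a) := by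
  have hne : K X ≠ ∅ := by
    intro h0
    have := h 0
    unfold δ at this
    rw [if_pos h0] at this
    norm_num at this
  have h1 : ∀ n, ∃ k ∈ K X, dist (x n) k < 1 / ((n : ℝ) + 1) := by
    intro n
    have := h n
    unfold δ at this
    rw [if_neg hne] at this
    exact (Metric.infDist_lt_iff (Set.nonempty_iff_ne_empty.2 hne)).1 this
  choose k hk1 hk2 using h1
  obtain ⟨a, ha, φ, hφ, hlim⟩ := hK.tendsto_subseq hk1
  refine ⟨a, φ, hφ, ?_⟩
  have h3 : Tendsto (fun n => dist (x (φ n)) (k (φ n))) atTop (𝓝 0) := by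
    have h4 : Tendsto (fun n => dist (x n) (k n)) atTop (𝓝 0) :=
      squeeze_zero (fun n => dist_nonneg) (fun n => (hk2 n).le)
        tendsto_one_div_add_atTop_nhds_zero_nat
    exact h4.comp hφ.tendsto_atTop
  exact (tendsto_iff_of_dist h3).2 hlim

section conv

variable [TopologicalSpace (FreeGroup X)] [IsTopologicalGroup (FreeGroup X)]

theorem letter_tendsto (hof : Continuous (FreeGroup.of : X → FreeGroup X)) {ι : Type}
    {l : Filter ι} {x : ι → X} {a : X} (h : Tendsto x l (𝓝 a)) (b : Bool) :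
    Tendsto (fun n => FreeGroup.mk [(x n, b)]) l (𝓝 (FreeGroup.mk [(a, b)])) := by
  cases b
  · have h1 : ∀ y : X, FreeGroup.mk [(y, false)] = (FreeGroup.of y)⁻¹ := by
      intro y; simp [FreeGroup.of, FreeGroup.inv_mk, FreeGroup.invRev]
    simp only [h1]
    exact ((hof.tendsto a).comp h).inv
  · exact (hof.tendsto a).comp h

theorem mk_pair_self (x : X) (b : Bool) : FreeGroup.mk [(x, b), (x, !b)] = 1 := by
  have : FreeGroup.mk [(x, b), (x, !b)] = FreeGroup.mk [(x, b)] * (FreeGroup.mk [(x, b)])⁻¹ := by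
    simp [FreeGroup.inv_mk, FreeGroup.invRev]
  rw [this, mul_inv_cancel]

theorem mk_split {L L' : List (X × Bool)} : FreeGroup.mk (L ++ L') = FreeGroup.mk L * FreeGroup.mk L' := by
  rw [FreeGroup.mul_mk]

theorem mk_cons' (a : X × Bool) (L : List (X × Bool)) :
    FreeGroup.mk (a :: L) = FreeGroup.mk [a] * FreeGroup.mk L := by
  rw [FreeGroup.mul_mk]; rfl

/-- short close pairs are near the identity -/
theorem pair_nhds (hK : IsCompact (K X)) (hof : Continuous (FreeGroup.of : X → FreeGroup X))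
    {U : Set (FreeGroup X)} (hU : U ∈ 𝓝 (1 : FreeGroup X)) (b : Bool) :
    ∃ n : ℕ, ∀ p q : X, D p q < 1 / ((n : ℝ) + 1) → FreeGroup.mk [(p, b), (q, !b)] ∈ U := by
  by_contra hcon
  push Not at hcon
  choose p q hpq hn using hcon
  have hne : ∀ n, p n ≠ q n := by
    intro n h
    apply hn n
    rw [h, mk_pair_self]
    exact mem_of_mem_nhds hU
  have h1 : ∀ n : ℕ, δ (p n) < 1 / ((n : ℝ) + 1) := by
    intro n
    have := hpq n
    rw [D_ne (hne n)] at this
    have := δ_nonneg (q n)
    have := dist_nonneg (x := p n) (y := q n)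
    linarith
  obtain ⟨a, φ, hφ, hlim⟩ := extract hK p h1
  have h2 : Tendsto (fun n => dist (p n) (q n)) atTop (𝓝 0) :=
    squeeze_zero (fun n => dist_nonneg) (fun n => ((dist_le_D _ _).trans (hpq n).le))
      tendsto_one_div_add_atTop_nhds_zero_nat
  have h3 : Tendsto (q ∘ φ) atTop (𝓝 a) := (tendsto_iff_of_dist (h2.comp hφ.tendsto_atTop)).1 hlim
  have h4 := (letter_tendsto hof hlim b).mul (letter_tendsto hof h3 (!b))
  have h5 : FreeGroup.mk [(a, b)] * FreeGroup.mk [(a, !b)] = 1 := by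
    rw [← mk_split]; exact mk_pair_self a b
  rw [h5] at h4
  obtain ⟨n, hn'⟩ := (h4.eventually hU).exists
  apply hn (φ n)
  rw [← mk_split] at hn'
  exact hn'

theorem pair_nhds' (hK : IsCompact (K X)) (hof : Continuous (FreeGroup.of : X → FreeGroup X))
    {U : Set (FreeGroup X)} (hU : U ∈ 𝓝 (1 : FreeGroup X)) :
    ∃ n : ℕ, ∀ (p q : X) (b : Bool), D p q < 1 / ((n : ℝ) + 1) →
      FreeGroup.mk [(p, b), (q, !b)] ∈ U := by
  obtain ⟨n1, h1⟩ := pair_nhds hK hof hU true
  obtain ⟨n2, h2⟩ := pair_nhds hK hof hU false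
  refine ⟨max n1 n2, ?_⟩
  intro p q b h
  have m1 : (1 : ℝ) / (((max n1 n2 : ℕ) : ℝ) + 1) ≤ 1 / ((n1 : ℝ) + 1) :=
    one_div_le_one_div_of_le (by positivity) (by
      have : (n1 : ℝ) ≤ ((max n1 n2 : ℕ) : ℝ) := by exact_mod_cast le_max_left _ _
      linarith)
  have m2 : (1 : ℝ) / (((max n1 n2 : ℕ) : ℝ) + 1) ≤ 1 / ((n2 : ℝ) + 1) :=
    one_div_le_one_div_of_le (by positivity) (by
      have : (n2 : ℝ) ≤ ((max n1 n2 : ℕ) : ℝ) := by exact_mod_cast le_max_right _ _
      linarith)
  cases b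
  · exact h2 p q (lt_of_lt_of_le h m2)
  · exact h1 p q (lt_of_lt_of_le h m1)

theorem pair_tendsto (hK : IsCompact (K X)) (hof : Continuous (FreeGroup.of : X → FreeGroup X))
    {V : ℕ → List (X × Bool)} (hV : ∀ n : ℕ, Sm D (1 / ((n : ℝ) + 1)) (V n)) :
    Tendsto (fun n => FreeGroup.mk (V n)) atTop (𝓝 1) := by
  intro U hU
  obtain ⟨n, hn⟩ := pair_nhds' hK hof hU
  rw [mem_map]
  filter_upwards [eventually_ge_atTop n] with m hm
  rcases hV m with h | ⟨p, q, b, h, hd⟩
  · show FreeGroup.mk (V m) ∈ U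
    rw [h]
    exact mem_of_mem_nhds hU
  · show FreeGroup.mk (V m) ∈ U
    rw [h]
    apply hn
    refine lt_of_lt_of_le hd (one_div_le_one_div_of_le (by positivity) ?_)
    have : (n : ℝ) ≤ (m : ℝ) := by exact_mod_cast hm
    linarith

/-- conjugates near the non-isolated points -/
theorem conj_nhds (hK : IsCompact (K X)) (hof : Continuous (FreeGroup.of : X → FreeGroup X))
    {U : Set (FreeGroup X)} (hU : U ∈ 𝓝 (1 : FreeGroup X)) (b b' : Bool) :
    ∃ n : ℕ, ∀ x y p q : X, δ x < 1 / ((n : ℝ) + 1) → D x y < 1 / ((n : ℝ) + 1) →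
      D p q < 1 / ((n : ℝ) + 1) →
      FreeGroup.mk [(x, b), (p, b'), (q, !b'), (y, !b)] ∈ U := by
  by_contra hcon
  push Not at hcon
  choose x y p q h1 h2 h3 hn using hcon
  obtain ⟨a, φ, hφ, hlim⟩ := extract hK x h1
  have h4 : Tendsto (fun n => dist (x n) (y n)) atTop (𝓝 0) :=
    squeeze_zero (fun n => dist_nonneg) (fun n => ((dist_le_D _ _).trans (h2 n).le))
      tendsto_one_div_add_atTop_nhds_zero_nat
  have h5 : Tendsto (y ∘ φ) atTop (𝓝 a) := (tendsto_iff_of_dist (h4.comp hφ.tendsto_atTop)).1 hlim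
  have h6 : Tendsto (fun n => FreeGroup.mk [(p n, b'), (q n, !b')]) atTop (𝓝 1) :=
    pair_tendsto hK hof (fun n : ℕ => Or.inr ⟨p n, q n, b', rfl, h3 n⟩)
  have h7 := ((letter_tendsto hof hlim b).mul (h6.comp hφ.tendsto_atTop)).mul
    (letter_tendsto hof h5 (!b))
  have h8 : FreeGroup.mk [(a, b)] * 1 * FreeGroup.mk [(a, !b)] = 1 := by
    rw [mul_one, ← mk_split]; exact mk_pair_self a b
  rw [h8] at h7
  obtain ⟨n, hn'⟩ := (h7.eventually hU).exists
  apply hn (φ n)
  simp only [Function.comp, ← mk_split] at hn'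
  exact hn'

/-- convergence of words with converging letters -/
theorem near_tendsto (hK : IsCompact (K X)) (hof : Continuous (FreeGroup.of : X → FreeGroup X)) :
    ∀ (S : List (X × Bool)) (W : ℕ → List (X × Bool)),
    (∀ n : ℕ, Near D (1 / ((n : ℝ) + 1)) S (W n)) →
    Tendsto (fun n => FreeGroup.mk (W n)) atTop (𝓝 (FreeGroup.mk S)⁻¹) := by
  intro S
  induction S with
  | nil =>
    intro W h
    have h1 : (FreeGroup.mk ([] : List (X × Bool)))⁻¹ = 1 := inv_one
    rw [h1]
    exact pair_tendsto hK hof h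
  | cons c S ih =>
    obtain ⟨x, b⟩ := c
    intro W h
    choose W1 y V hW hxy hV hN using h
    have h1 : Tendsto y atTop (𝓝 x) := by
      have h4 : Tendsto (fun n => dist (y n) x) atTop (𝓝 0) :=
        squeeze_zero (fun n => dist_nonneg)
          (fun n => by rw [dist_comm]; exact ((dist_le_D _ _).trans (hxy n).le))
          tendsto_one_div_add_atTop_nhds_zero_nat
      exact tendsto_iff_dist_tendsto_zero.2 h4
    have h2 := ((ih W1 hN).mul (letter_tendsto hof h1 (!b))).mul (pair_tendsto hK hof hV)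
    have h3 : (FreeGroup.mk S)⁻¹ * FreeGroup.mk [(x, !b)] * 1 = (FreeGroup.mk ((x, b) :: S))⁻¹ := by
      rw [mk_cons' (x, b) S, mul_inv_rev, mul_one]
      rfl
    rw [h3] at h2
    refine h2.congr (fun n => ?_)
    rw [hW n, mk_split, show (y n, !b) :: V n = [(y n, !b)] ++ V n from rfl, mk_split, mul_assoc]

end conv

end Pool.Agent.Q307.Yam
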