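import Mathlib

set_option autoImplicit false
set_option linter.all false

/-! Noncrossing matchings of words with weights depending on the enclosing letters. -/

namespace Pool.Agent.Q307.Yam

variable {X : Type*}

/-- `M d Φ L c`: the word `L` has a noncrossing perfect matching of opposite letters of weight `c`. -/
inductive M (d : X → X → ℝ) (Φ : X → ℝ) : List (X × Bool) → ℝ → Prop
  | nil : M d Φ [] 0
  | cons {x y : X} {b : Bool} {U V : List (X × Bool)} {c e : ℝ} (h : Φ x = Φ y)
      (hU : M d Φ U c) (hV : M d Φ V e) :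
      M d Φ ((x, b) :: (U ++ (y, !b) :: V)) (d x y + Φ x * c + e)

/-- the assumptions on the distance and the weights -/
structure Ok (d : X → X → ℝ) (Φ : X → ℝ) : Prop where
  self : ∀ x, d x x = 0
  nonneg : ∀ x y, 0 ≤ d x y
  symm : ∀ x y, d x y = d y x
  tri : ∀ x y z, d x z ≤ d x y + d y z
  one : ∀ x, 1 ≤ Φ x

section
variable {d : X → X → ℝ} {Φ : X → ℝ}

theorem M.nonneg (ok : Ok d Φ) {L : List (X × Bool)} {c : ℝ} (h : M d Φ L c) : 0 ≤ c := by
  induction h with
  | nil => exact le_refl 0
  | @cons x y b U V c e hxy hU hV ihU ihV =>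
    have := ok.nonneg x y
    have h1 := ok.one x
    have : 0 ≤ Φ x * c := mul_nonneg (by linarith) ihU
    linarith

theorem M.inv_cons {x : X} {b : Bool} {L : List (X × Bool)} {c : ℝ} (h : M d Φ ((x, b) :: L) c) :
    ∃ (y : X) (U V : List (X × Bool)) (c1 e : ℝ), Φ x = Φ y ∧ M d Φ U c1 ∧ M d Φ V e ∧
      L = U ++ (y, !b) :: V ∧ c = d x y + Φ x * c1 + e := by
  cases h with
  | cons hxy hU hV => exact ⟨_, _, _, _, _, hxy, hU, hV, rfl, rfl⟩

theorem M.cons' {x y : X} {b b' : Bool} {U V L : List (X × Bool)} {c e f : ℝ} (h : Φ x = Φ y)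
    (hU : M d Φ U c) (hV : M d Φ V e) (hb : b' = !b) (hL : L = (x, b) :: (U ++ (y, b') :: V))
    (hf : f = d x y + Φ x * c + e) : M d Φ L f := by
  subst hb; subst hL; subst hf
  exact M.cons h hU hV

theorem M.append {L L' : List (X × Bool)} {c c' : ℝ} (h : M d Φ L c) (h' : M d Φ L' c') :
    M d Φ (L ++ L') (c + c') := by
  induction h with
  | nil => simpa using h'
  | @cons x y b U V c e hxy hU hV ihU ihV =>
    exact M.cons' (b := b) hxy hU ihV rfl (by simp) (by ring)

theorem M.even {L : List (X × Bool)} {c : ℝ} (h : M d Φ L c) : Even L.length := by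
  induction h with
  | nil => simp
  | @cons x y b U V c e hxy hU hV ihU ihV =>
    obtain ⟨m, hm⟩ := ihU
    obtain ⟨n, hn⟩ := ihV
    refine ⟨m + n + 1, ?_⟩
    simp [hm, hn]; ring

/-- decomposition from the right -/
theorem M.right (ok : Ok d Φ) {L : List (X × Bool)} {c : ℝ} (h : M d Φ L c) :
    ∀ (L' : List (X × Bool)) (a : X) (s : Bool), L = L' ++ [(a, s)] →
    ∃ (P Q : List (X × Bool)) (z : X) (c1 c2 : ℝ), L' = P ++ (z, !s) :: Q ∧ Φ z = Φ a ∧
      M d Φ P c1 ∧ M d Φ Q c2 ∧ c = c1 + d z a + Φ z * c2 := by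
  induction h with
  | nil => intro L' a s h; simp at h
  | @cons x y b U V c e hxy hU hV ihU ihV =>
    intro L' a s hL
    rcases List.eq_nil_or_concat V with rfl | ⟨V', ⟨a', s'⟩, rfl⟩
    · have h1 : ((x, b) :: U) ++ [(y, !b)] = L' ++ [(a, s)] := by simpa using hL
      have h2 := List.append_inj' h1 rfl
      obtain ⟨h2, h3⟩ := h2
      simp only [List.cons.injEq, Prod.mk.injEq, and_true] at h3
      obtain ⟨rfl, rfl⟩ := h3
      have he : e = 0 := by cases hV; rfl
      refine ⟨[], U, x, 0, c, by simp [← h2], hxy, M.nil, hU, ?_⟩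
      rw [he]; ring
    · have h1 : ((x, b) :: (U ++ (y, !b) :: V')) ++ [(a', s')] = L' ++ [(a, s)] := by
        simpa using hL
      obtain ⟨h2, h3⟩ := List.append_inj' h1 rfl
      simp only [List.cons.injEq, Prod.mk.injEq, and_true] at h3
      obtain ⟨rfl, rfl⟩ := h3
      obtain ⟨P, Q, z, c1, c2, hV', hz, hP, hQ, hc⟩ := ihV V' a' s' (by simp)
      refine ⟨(x, b) :: (U ++ (y, !b) :: P), Q, z, d x y + Φ x * c + c1, c2, ?_, hz,
        M.cons hxy hU hP, hQ, ?_⟩
      · rw [← h2, hV']; simp
      · rw [hc]; ring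

/-- inserting a trivial pair -/
theorem M.insert (ok : Ok d Φ) {L : List (X × Bool)} {c : ℝ} (h : M d Φ L c) :
    ∀ (L1 L2 : List (X × Bool)) (a : X) (s : Bool), L = L1 ++ L2 →
      M d Φ (L1 ++ (a, s) :: (a, !s) :: L2) c := by
  induction h with
  | nil =>
    intro L1 L2 a s h
    have h1 : L1 = [] ∧ L2 = [] := by simpa using h.symm
    obtain ⟨rfl, rfl⟩ := h1
    exact M.cons' (x := a) (y := a) (b := s) (U := []) (V := []) rfl M.nil M.nil rfl (by simp)
      (by rw [ok.self]; ring)
  | @cons x y b U V c e hxy hU hV ihU ihV =>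
    intro L1 L2 a s hL
    rcases L1 with _ | ⟨⟨x', b'⟩, L1⟩
    · simp only [List.nil_append] at hL ⊢
      rw [← hL]
      exact M.cons' (x := a) (y := a) (b := s) (U := []) rfl M.nil (M.cons (b := b) hxy hU hV) rfl
        (by simp) (by rw [ok.self]; ring)
    · simp only [List.cons_append, List.cons.injEq, Prod.mk.injEq] at hL
      obtain ⟨⟨rfl, rfl⟩, hL⟩ := hL
      rcases List.append_eq_append_iff.1 hL with ⟨T, h1, h2⟩ | ⟨T, h1, h2⟩
      · -- L1 = U ++ T, (y,!b)::V = T ++ L2
        rcases T with _ | ⟨t, T⟩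
        · simp only [List.append_nil, List.nil_append] at h1 h2
          subst h1
          have := ihU L1 [] a s (by simp)
          exact M.cons' (b := b) (U := L1 ++ [(a, s), (a, !s)]) hxy this hV rfl (by simp [← h2]) rfl
        · simp only [List.cons_append, List.cons.injEq] at h2
          obtain ⟨rfl, h2⟩ := h2
          have := ihV T L2 a s h2
          exact M.cons' (b := b) hxy hU this rfl (by simp [h1]) rfl
      · -- U = L1 ++ T, L2 = T ++ (y,!b)::V
        have := ihU L1 T a s h1
        exact M.cons' (b := b) hxy this hV rfl (by simp [h2]) rfl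

/-- removing a cancelling pair does not increase the weight -/
theorem M.remove (ok : Ok d Φ) {L : List (X × Bool)} {c : ℝ} (h : M d Φ L c) :
    ∀ (L1 L2 : List (X × Bool)) (a : X) (s : Bool), L = L1 ++ (a, s) :: (a, !s) :: L2 →
      ∃ c' ≤ c, M d Φ (L1 ++ L2) c' := by
  induction h with
  | nil => intro L1 L2 a s h; simp at h
  | @cons x y b U V c e hxy hU hV ihU ihV =>
    intro L1 L2 a s hL
    have hx1 := ok.one x
    rcases L1 with _ | ⟨⟨x', b'⟩, L1⟩
    · simp only [List.nil_append, List.cons.injEq, Prod.mk.injEq] at hL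
      obtain ⟨⟨rfl, rfl⟩, hL⟩ := hL
      rcases U with _ | ⟨⟨u, r⟩, U⟩
      · simp only [List.nil_append, List.cons.injEq, Prod.mk.injEq, and_true] at hL
        obtain ⟨rfl, rfl⟩ := hL
        refine ⟨e, ?_, by simpa using hV⟩
        have h0 : 0 ≤ c := hU.nonneg ok
        have := ok.nonneg y y
        have : 0 ≤ Φ y * c := mul_nonneg (by linarith) h0
        linarith
      · simp only [List.cons_append, List.cons.injEq, Prod.mk.injEq] at hL
        obtain ⟨⟨rfl, rfl⟩, hL⟩ := hL
        obtain ⟨z, U1, V1, e1, e2, hz, hU1, hV1, hU', hc⟩ := hU.inv_cons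
        subst hU' hc
        have e1n := hU1.nonneg ok
        have e2n := hV1.nonneg ok
        refine ⟨e1 + (d z y + Φ z * e2 + e), ?_, ?_⟩
        · rw [← hz]
          have t1 := ok.tri z u y
          have t2 := ok.symm z u
          have t3 := ok.nonneg u z
          have t4 := ok.nonneg u y
          have m1 : e1 ≤ Φ u * (Φ u * e1) := by nlinarith [mul_nonneg (sub_nonneg.2 hx1) e1n]
          have m2 : d u z ≤ Φ u * d u z := by nlinarith
          nlinarith
        · have key := hU1.append (M.cons (b := b) (hz ▸ hxy : Φ z = Φ y) hV1 hV)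
          simp only [Bool.not_not] at hL
          simpa [← hL] using key
    · simp only [List.cons_append, List.cons.injEq, Prod.mk.injEq] at hL
      obtain ⟨⟨rfl, rfl⟩, hL⟩ := hL
      have hc0 := hU.nonneg ok
      have he0 := hV.nonneg ok
      rcases List.append_eq_append_iff.1 hL with ⟨T, h1, h2⟩ | ⟨T, h1, h2⟩
      · -- L1 = U ++ T, (y,!b)::V = T ++ (a,s)::(a,!s)::L2
        rcases T with _ | ⟨t, T⟩
        · -- (a,s) = (y,!b)
          simp only [List.append_nil, List.nil_append, List.cons.injEq, Prod.mk.injEq] at h1 h2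
          subst h1
          obtain ⟨⟨rfl, rfl⟩, h2⟩ := h2
          subst h2
          obtain ⟨z, V1, V2, e1, e2, hz, hV1, hV2, hV', hc⟩ := hV.inv_cons
          subst hV' hc
          have e1n := hV1.nonneg ok
          have e2n := hV2.nonneg ok
          refine ⟨d x z + Φ x * (c + e1) + e2, ?_, ?_⟩
          · have t1 := ok.tri x y z
            rw [← hxy]
            nlinarith
          · exact M.cons' (b := b) (hxy.trans hz) (hU.append hV1) hV2 rfl (by simp) rfl
        · simp only [List.cons_append, List.cons.injEq] at h2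
          obtain ⟨rfl, h2⟩ := h2
          obtain ⟨e', he', hV'⟩ := ihV T L2 a s h2
          refine ⟨d x y + Φ x * c + e', by linarith, ?_⟩
          exact M.cons' (b := b) hxy hU hV' rfl (by simp [h1]) rfl
      · -- U = L1 ++ T, (a,s)::(a,!s)::L2 = T ++ (y,!b)::V
        rcases T with _ | ⟨t, T⟩
        · -- same as above: (a,s) = (y,!b)
          simp only [List.append_nil, List.nil_append, List.cons.injEq, Prod.mk.injEq] at h1 h2
          subst h1
          obtain ⟨⟨rfl, rfl⟩, h2⟩ := h2
          subst h2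
          obtain ⟨z, V1, V2, e1, e2, hz, hV1, hV2, hV', hc⟩ := hV.inv_cons
          subst hV' hc
          have e1n := hV1.nonneg ok
          have e2n := hV2.nonneg ok
          refine ⟨d x z + Φ x * (c + e1) + e2, ?_, ?_⟩
          · have t1 := ok.tri x a z
            rw [← hxy]
            nlinarith
          · exact M.cons' (b := b) (hxy.trans hz) (hU.append hV1) hV2 rfl (by simp) rfl
        · simp only [List.cons_append, List.cons.injEq] at h2
          obtain ⟨rfl, h2⟩ := h2
          rcases T with _ | ⟨t', T⟩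
          · -- U = L1 ++ [(a,s)], (a,!s) = (y,!b)
            simp only [List.nil_append, List.cons.injEq, Prod.mk.injEq] at h2
            obtain ⟨⟨rfl, h3⟩, rfl⟩ := h2
            have hs : s = b := by simpa using h3
            subst hs
            obtain ⟨P, Q, z, c1, c2, hL1, hz, hP, hQ, hc⟩ := hU.right ok L1 a s h1
            subst hL1 hc
            have c1n := hP.nonneg ok
            have c2n := hQ.nonneg ok
            refine ⟨d x z + Φ x * c1 + (c2 + e), ?_, ?_⟩
            · have t1 := ok.tri x a z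
              have t2 := ok.symm a z
              have t3 := ok.nonneg z a
              have hxz : Φ x = Φ z := hxy.trans hz.symm
              rw [← hxz]
              have m1 : c2 ≤ Φ x * (Φ x * c2) := by nlinarith [mul_nonneg (sub_nonneg.2 hx1) c2n]
              have m2 : d z a ≤ Φ x * d z a := by nlinarith
              nlinarith
            · exact M.cons' (b := s) (hxy.trans hz.symm) hP (hQ.append hV) rfl (by simp) rfl
          · simp only [List.cons_append, List.cons.injEq] at h2
            obtain ⟨rfl, h2⟩ := h2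
            obtain ⟨c', hc', hU'⟩ := ihU L1 T a s h1
            refine ⟨d x y + Φ x * c' + e, by nlinarith, ?_⟩
            exact M.cons' (b := b) hxy hU' hV rfl (by simp [h2]) rfl

end

end Pool.Agent.Q307.Yam
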