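import Pool.Agent.Q307.Yam.Top

set_option autoImplicit false
set_option linter.all false

/-! Shape of words close to a given reduced word. -/

namespace Pool.Agent.Q307.Yam

variable {X : Type*} {d : X → X → ℝ} {Φ : X → ℝ}

/-- small words -/
def Sm (d : X → X → ℝ) (ε : ℝ) (V : List (X × Bool)) : Prop :=
  V = [] ∨ ∃ (p q : X) (b : Bool), V = [(p, b), (q, !b)] ∧ d p q < ε

/-- `W` is close to the inverse of `S` -/
def Near (d : X → X → ℝ) (ε : ℝ) : List (X × Bool) → List (X × Bool) → Prop
  | [], W => Sm d ε W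
  | (x, b) :: S, W => ∃ (W1 : List (X × Bool)) (y : X) (V : List (X × Bool)),
      W = W1 ++ (y, !b) :: V ∧ d x y < ε ∧ Sm d ε V ∧ Near d ε S W1

/-- adjacent opposite letters are at distance at least `ε` -/
def Sep (d : X → X → ℝ) (ε : ℝ) (S : List (X × Bool)) : Prop :=
  S.IsChain (fun a b => a.2 ≠ b.2 → ε ≤ d a.1 b.1)

theorem Near.len {ε : ℝ} : ∀ {S W : List (X × Bool)}, Near d ε S W → S.length ≤ W.length := by
  intro S
  induction S with
  | nil => intro W h; simp
  | cons a S ih =>
    obtain ⟨x, b⟩ := a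
    rintro W ⟨W1, y, V, rfl, h1, h2, h3⟩
    have := ih h3
    simp; omega

theorem M.small (ok : Ok d Φ) {V : List (X × Bool)} {c : ℝ} (h : M d Φ V c)
    (hl : V.length ≤ 3) : V = [] ∨ ∃ (p q : X) (b : Bool), V = [(p, b), (q, !b)] ∧ d p q ≤ c := by
  rcases V with _ | ⟨⟨x, b⟩, V⟩
  · exact Or.inl rfl
  right
  obtain ⟨y, U, W, c1, e, hxy, hU, hW, rfl, rfl⟩ := h.inv_cons
  have h1 := hU.even
  have h2 := hW.even
  have h3 : U.length + W.length ≤ 1 := by simp at hl; omega
  have hU0 : U.length = 0 := by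
    obtain ⟨m, hm⟩ := h1; omega
  have hW0 : W.length = 0 := by
    obtain ⟨m, hm⟩ := h2; omega
  rw [List.length_eq_zero_iff] at hU0 hW0
  subst hU0 hW0
  refine ⟨x, y, b, by simp, ?_⟩
  have := hU.nonneg ok
  have := hW.nonneg ok
  have := ok.one x
  have : 0 ≤ Φ x * c1 := by positivity
  linarith

theorem Sep.empty (ok : Ok d Φ) {ε : ℝ} {U : List (X × Bool)} {c : ℝ} (h : M d Φ U c) :
    c < ε → Sep d ε U → U = [] := by
  induction h with
  | nil => intro _ _; rfl
  | @cons x y b U V c e hxy hU hV ihU ihV =>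
    intro hc hs
    exfalso
    have h1 := hU.nonneg ok
    have h2 := hV.nonneg ok
    have h3 := ok.one x
    have h4 := ok.nonneg x y
    have h5 : c ≤ Φ x * c := by nlinarith
    have hUs : Sep d ε U := by
      have : Sep d ε (((x, b) :: U) ++ (y, !b) :: V) := by simpa using hs
      have := List.IsChain.left_of_append this
      exact this.tail
    have hU0 := ihU (by linarith) hUs
    subst hU0
    have h6 : ε ≤ d x y := by
      have h7 : List.IsChain (fun a b => a.2 ≠ b.2 → ε ≤ d a.1 b.1) ((x, b) :: (y, !b) :: V) := by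
        simpa [Sep] using hs
      have := (List.isChain_cons_cons.1 h7).1
      exact this (by simp)
    linarith

theorem near_of_M (ok : Ok d Φ) {ε : ℝ} : ∀ (S W : List (X × Bool)) (c : ℝ), M d Φ (S ++ W) c →
    c < ε → Sep d ε S → W.length ≤ S.length + 3 → Near d ε S W := by
  intro S
  induction S with
  | nil =>
    intro W c h hc _ hl
    rcases M.small ok (by simpa using h) (by simpa using hl) with h1 | ⟨p, q, b, h1, h2⟩
    · exact Or.inl h1
    · exact Or.inr ⟨p, q, b, h1, lt_of_le_of_lt h2 hc⟩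
  | cons a S ih =>
    obtain ⟨x, b⟩ := a
    intro W c h hc hs hl
    obtain ⟨y, U, V, c1, e, hxy, hU, hV, hSW, rfl⟩ := M.inv_cons (by simpa using h)
    have h1 := hU.nonneg ok
    have h2 := hV.nonneg ok
    have h3 := ok.one x
    have h4 := ok.nonneg x y
    have h5 : c1 ≤ Φ x * c1 := by nlinarith
    have h0 : 0 ≤ Φ x * c1 := by positivity
    have key : ∀ T : List (X × Bool), U = S ++ T → W = T ++ (y, !b) :: V →
        Near d ε ((x, b) :: S) W := by
      intro T hT hW
      subst hT hW
      have hl' : T.length + (V.length + 1) ≤ S.length + 1 + 3 := by simpa using hl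
      have hN := ih T c1 hU (by linarith) hs.tail (by omega)
      have hlen := hN.len
      refine ⟨T, y, V, rfl, by linarith, ?_, hN⟩
      rcases M.small ok hV (by omega) with h1 | ⟨p, q, b, h1, h2⟩
      · exact Or.inl h1
      · exact Or.inr ⟨p, q, b, h1, by linarith⟩
    rcases List.append_eq_append_iff.1 hSW with ⟨T, h6, h7⟩ | ⟨T, h6, h7⟩
    · exact key T h6 h7
    · rcases T with _ | ⟨t, T⟩
      · exact key [] (by simpa using h6.symm) (by simpa using h7.symm)
      · exfalso
        simp only [List.cons_append, List.cons.injEq] at h7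
        obtain ⟨rfl, h7⟩ := h7
        subst h6
        have hs' : List.IsChain (fun a b => a.2 ≠ b.2 → ε ≤ d a.1 b.1)
            ((x, b) :: (U ++ (y, !b) :: T)) := hs
        have hUs : Sep d ε U := by
          have : Sep d ε (((x, b) :: U) ++ (y, !b) :: T) := hs'
          have := List.IsChain.left_of_append this
          exact this.tail
        have hU0 := Sep.empty ok hU (by linarith) hUs
        subst hU0
        have h8 : List.IsChain (fun a b => a.2 ≠ b.2 → ε ≤ d a.1 b.1) ((x, b) :: (y, !b) :: T) := by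
          simpa using hs'
        have := (List.isChain_cons_cons.1 h8).1 (by simp)
        simp only at this
        linarith

/-- reduced words are separated -/
theorem exists_sep (hpos : ∀ x y, x ≠ y → 0 < d x y) : ∀ (S : List (X × Bool)),
    FreeGroup.IsReduced S → ∃ ε : ℝ, 0 < ε ∧ Sep d ε S := by
  intro S
  induction S with
  | nil => intro _; exact ⟨1, one_pos, List.isChain_nil⟩
  | cons a S ih =>
    intro h
    rcases S with _ | ⟨b, S⟩
    · exact ⟨1, one_pos, List.isChain_singleton _⟩
    · have h' : List.IsChain (fun (a b : X × Bool) => a.1 = b.1 → a.2 = b.2) (a :: b :: S) := h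
      obtain ⟨h1, h2⟩ := List.isChain_cons_cons.1 h'
      obtain ⟨ε, hε, hs⟩ := ih h2
      by_cases hab : a.1 = b.1
      · refine ⟨ε, hε, List.isChain_cons_cons.2 ⟨fun h3 => absurd (h1 hab) h3, hs⟩⟩
      · refine ⟨min ε (d a.1 b.1), lt_min hε (hpos _ _ hab),
          List.isChain_cons_cons.2 ⟨fun _ => min_le_right _ _, ?_⟩⟩
        exact List.IsChain.imp (fun a b h h' => (min_le_left _ _).trans (h h')) hs

theorem Sep.mono {ε δ : ℝ} {S : List (X × Bool)} (h : δ ≤ ε) (hs : Sep d ε S) : Sep d δ S :=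
  List.IsChain.imp (fun a b h1 h2 => h.trans (h1 h2)) hs

theorem Sm.mono {ε δ : ℝ} {V : List (X × Bool)} (h : Sm d ε V) (hle : ε ≤ δ) : Sm d δ V := by
  rcases h with h | ⟨p, q, b, h, h'⟩
  · exact Or.inl h
  · exact Or.inr ⟨p, q, b, h, lt_of_lt_of_le h' hle⟩

theorem Near.mono {ε δ : ℝ} : ∀ {S W : List (X × Bool)}, Near d ε S W → ε ≤ δ → Near d δ S W := by
  intro S
  induction S with
  | nil => intro W h hle; exact Sm.mono h hle
  | cons a S ih =>
    obtain ⟨x, b⟩ := a
    rintro W ⟨W1, y, V, rfl, h1, h2, h3⟩ hle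
    exact ⟨W1, y, V, rfl, lt_of_lt_of_le h1 hle, h2.mono hle, ih h3 hle⟩

end Pool.Agent.Q307.Yam
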