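import Mathlib
import Pool.Agent.Q307.Yam.KR

set_option autoImplicit false

/-! MP_c880a5_gt, Q1: for every (uncountable) discrete space `D` the space `F_4(C ⊕ D)` is a
`k_R`-space, where `C` is a convergent sequence with its limit. -/

open Filter Topology

namespace Pool.Agent.Q307.Yam.SequencePlusDiscreteKR

/-- The topology of the free topological group on `X` (in the sense of Markov), on the abstract
free group: the finest group topology which makes the inclusion of the generators continuous. -/
noncomputable def freeTopology (X : Type*) [TopologicalSpace X] : GroupTopology (FreeGroup X) :=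
  sInf {t : GroupTopology (FreeGroup X) |
    @Continuous X (FreeGroup X) _ t.toTopologicalSpace FreeGroup.of}

/-- `F_n(X)`: the elements of the free group of reduced length at most `n`. -/
def Level (n : ℕ) (X : Type*) : Type _ :=
  {w : FreeGroup X // ∃ L : List (X × Bool), L.length ≤ n ∧ FreeGroup.mk L = w}

/-- `F_n(X)` carries the subspace topology. -/
noncomputable instance (n : ℕ) (X : Type*) [TopologicalSpace X] : TopologicalSpace (Level n X) :=
  TopologicalSpace.induced Subtype.val (freeTopology X).toTopologicalSpace

/-- `Y` is a `k_R`-space: a real valued function which is continuous on every compact subset is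
continuous. -/
def IsKR (Y : Type*) [TopologicalSpace Y] : Prop :=
  ∀ f : Y → ℝ, (∀ C : Set Y, IsCompact C → ContinuousOn f C) → Continuous f

/-- The convergent sequence `{0} ∪ {1/m : m ≥ 1}` in the real line. -/
def C : Set ℝ := insert 0 (Set.range fun m : ℕ => 1 / ((m : ℝ) + 1))

theorem isCompact_C : IsCompact C :=
  (tendsto_one_div_add_atTop_nhds_zero_nat (𝕜 := ℝ)).isCompact_insert_range

theorem result : ∀ (D : Type*) [TopologicalSpace D] [DiscreteTopology D], Uncountable D →
    IsKR (Level 4 (C ⊕ D)) := by
  intro D _ _ _
  letI : MetricSpace (C ⊕ D) := by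
    haveI : TopologicalSpace.MetrizableSpace (C ⊕ D) := by
      letI : MetricSpace D := TopologicalSpace.metrizableSpaceMetric D
      letI : MetricSpace (C ⊕ D) := Metric.metricSpaceSum
      exact inferInstance
    exact TopologicalSpace.metrizableSpaceMetric _
  have hK : IsCompact {x : C ⊕ D | ¬ IsOpen ({x} : Set (C ⊕ D))} := by
    have h1 : IsCompact (Sum.inl '' (Set.univ : Set C) : Set (C ⊕ D)) := by
      haveI : CompactSpace C := isCompact_iff_compactSpace.1 isCompact_C
      exact isCompact_univ.image continuous_inl
    refine h1.of_isClosed_subset ?_ ?_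
    · rw [← isOpen_compl_iff]
      have : {x : C ⊕ D | ¬ IsOpen ({x} : Set (C ⊕ D))}ᶜ =
          ⋃ x ∈ {x : C ⊕ D | IsOpen ({x} : Set (C ⊕ D))}, {x} := by
        ext x; simp
      rw [this]
      exact isOpen_biUnion fun x hx => hx
    · rintro (c | d) h
      · exact ⟨c, trivial, rfl⟩
      · exfalso
        apply h
        have : ({Sum.inr d} : Set (C ⊕ D)) = Sum.inr '' {d} := by simp
        rw [this]
        exact isOpenMap_inr _ (isOpen_discrete _)
  haveI : FrechetUrysohnSpace (Level 4 (C ⊕ D)) := Pool.Agent.Q307.Yam.fu (C ⊕ D) hK
  intro f hf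
  exact Pool.Agent.Q307.Yam.kR_of_FU f hf

end Pool.Agent.Q307.Yam.SequencePlusDiscreteKR
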