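import Pool.Agent.Q307.Yam.Match

set_option autoImplicit false
set_option linter.all false

/-! The group topology given by a distance and weights. -/

open Topology Filter
open scoped Pointwise

namespace Pool.Agent.Q307.Yam

variable {X : Type*} {d : X → X → ℝ} {Φ : X → ℝ}

/-- the balls -/
def B (d : X → X → ℝ) (Φ : X → ℝ) (ε : ℝ) : Set (FreeGroup X) :=
  {g | ∃ L c, FreeGroup.mk L = g ∧ M d Φ L c ∧ c < ε}

theorem M.red (ok : Ok d Φ) {L L' : List (X × Bool)} {c : ℝ} (h : M d Φ L c)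
    (hr : FreeGroup.Red L L') : ∃ c' ≤ c, M d Φ L' c' := by
  induction hr with
  | refl => exact ⟨c, le_refl _, h⟩
  | tail _ hs ih =>
    obtain ⟨c', hc', h'⟩ := ih
    cases hs with
    | @not L1 L2 a s =>
      obtain ⟨c'', hc'', h''⟩ := h'.remove ok L1 L2 a s rfl
      exact ⟨c'', hc''.trans hc', h''⟩

theorem M.unred (ok : Ok d Φ) {L L' : List (X × Bool)} {c : ℝ}
    (hr : FreeGroup.Red L L') (h : M d Φ L' c) : M d Φ L c := by
  induction hr with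
  | refl => exact h
  | tail _ hs ih =>
    apply ih
    cases hs with
    | @not L1 L2 a s => exact h.insert ok L1 L2 a s rfl

/-- membership in a ball does not depend on the word -/
theorem mem_B (ok : Ok d Φ) {ε : ℝ} {L : List (X × Bool)} :
    FreeGroup.mk L ∈ B d Φ ε ↔ ∃ c, M d Φ L c ∧ c < ε := by
  constructor
  · rintro ⟨L', c, hL, hM, hc⟩
    obtain ⟨N, h1, h2⟩ := FreeGroup.Red.exact.1 hL
    obtain ⟨c', hc', hN⟩ := hM.red ok h1
    exact ⟨c', hN.unred ok h2, lt_of_le_of_lt hc' hc⟩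
  · rintro ⟨c, hM, hc⟩
    exact ⟨L, c, rfl, hM, hc⟩

theorem M.invRev (ok : Ok d Φ) {L : List (X × Bool)} {c : ℝ} (h : M d Φ L c) :
    M d Φ (FreeGroup.invRev L) c := by
  induction h with
  | nil => exact M.nil
  | @cons x y b U V c e hxy hU hV ihU ihV =>
    have h1 : M d Φ ((y, b) :: (FreeGroup.invRev U ++ (x, !b) :: [])) (d y x + Φ y * c + 0) :=
      M.cons hxy.symm ihU M.nil
    have h2 := ihV.append h1
    have h3 : FreeGroup.invRev ((x, b) :: (U ++ (y, !b) :: V)) =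
        FreeGroup.invRev V ++ (y, b) :: (FreeGroup.invRev U ++ (x, !b) :: []) := by
      simp [FreeGroup.invRev]
    rw [h3]
    convert h2 using 1
    rw [ok.symm x y, hxy]; ring

theorem one_mem_B {ε : ℝ} (hε : 0 < ε) : (1 : FreeGroup X) ∈ B d Φ ε :=
  ⟨[], 0, rfl, M.nil, hε⟩

theorem B_mono {ε δ : ℝ} (h : ε ≤ δ) : B d Φ ε ⊆ B d Φ δ := by
  rintro g ⟨L, c, hL, hM, hc⟩
  exact ⟨L, c, hL, hM, lt_of_lt_of_le hc h⟩

theorem mul_mem_B {ε δ : ℝ} {g h : FreeGroup X} (hg : g ∈ B d Φ ε) (hh : h ∈ B d Φ δ) :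
    g * h ∈ B d Φ (ε + δ) := by
  obtain ⟨L, c, rfl, hM, hc⟩ := hg
  obtain ⟨L', c', rfl, hM', hc'⟩ := hh
  exact ⟨L ++ L', c + c', by simp, hM.append hM', by linarith⟩

theorem inv_mem_B (ok : Ok d Φ) {ε : ℝ} {g : FreeGroup X} (hg : g ∈ B d Φ ε) :
    g⁻¹ ∈ B d Φ ε := by
  obtain ⟨L, c, rfl, hM, hc⟩ := hg
  exact ⟨_, c, by rw [FreeGroup.inv_mk], hM.invRev ok, hc⟩

theorem conj_letter (ok : Ok d Φ) {ε : ℝ} {g : FreeGroup X} (x : X) (b : Bool)
    (hg : g ∈ B d Φ (ε / Φ x)) :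
    FreeGroup.mk [(x, b)] * g * (FreeGroup.mk [(x, b)])⁻¹ ∈ B d Φ ε := by
  obtain ⟨L, c, rfl, hM, hc⟩ := hg
  have hx := ok.one x
  refine ⟨(x, b) :: (L ++ (x, !b) :: []), d x x + Φ x * c + 0, ?_, M.cons rfl hM M.nil, ?_⟩
  · simp [FreeGroup.inv_mk, FreeGroup.invRev]
  · rw [ok.self, zero_add, add_zero, mul_comm]
    exact (lt_div_iff₀ (by linarith)).1 hc

theorem conj_exists (ok : Ok d Φ) (L : List (X × Bool)) : ∀ ε : ℝ, 0 < ε → ∃ δ : ℝ, 0 < δ ∧
    ∀ g ∈ B d Φ δ, FreeGroup.mk L * g * (FreeGroup.mk L)⁻¹ ∈ B d Φ ε := by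
  induction L with
  | nil =>
    intro ε hε
    refine ⟨ε, hε, fun g hg => ?_⟩
    have : (FreeGroup.mk ([] : List (X × Bool))) = 1 := rfl
    simpa [this] using hg
  | cons a L ih =>
    intro ε hε
    obtain ⟨x, b⟩ := a
    have hx := ok.one x
    obtain ⟨δ, hδ, h⟩ := ih (ε / Φ x) (by positivity)
    refine ⟨δ, hδ, fun g hg => ?_⟩
    have h1 := conj_letter ok x b (h g hg)
    have h2 : (FreeGroup.mk ((x, b) :: L)) = FreeGroup.mk [(x, b)] * FreeGroup.mk L := by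
      rw [FreeGroup.mul_mk]; rfl
    rw [h2]
    convert h1 using 1
    group

/-- the filter basis -/
@[reducible] def basis (ok : Ok d Φ) : GroupFilterBasis (FreeGroup X) where
  sets := {S | ∃ ε : ℝ, 0 < ε ∧ S = B d Φ ε}
  nonempty := ⟨_, 1, one_pos, rfl⟩
  inter_sets := by
    rintro _ _ ⟨ε, hε, rfl⟩ ⟨δ, hδ, rfl⟩
    exact ⟨_, ⟨min ε δ, lt_min hε hδ, rfl⟩, fun g hg =>
      ⟨B_mono (min_le_left _ _) hg, B_mono (min_le_right _ _) hg⟩⟩
  one' := by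
    rintro _ ⟨ε, hε, rfl⟩
    exact one_mem_B hε
  mul' := by
    rintro _ ⟨ε, hε, rfl⟩
    refine ⟨_, ⟨ε / 2, by linarith, rfl⟩, ?_⟩
    rintro _ ⟨g, hg, h, hh, rfl⟩
    have := mul_mem_B hg hh
    rwa [add_halves] at this
  inv' := by
    rintro _ ⟨ε, hε, rfl⟩
    exact ⟨_, ⟨ε, hε, rfl⟩, fun g hg => inv_mem_B ok hg⟩
  conj' := by
    classical
    rintro g₀ _ ⟨ε, hε, rfl⟩
    obtain ⟨δ, hδ, h⟩ := conj_exists ok g₀.toWord ε hε
    refine ⟨_, ⟨δ, hδ, rfl⟩, fun g hg => ?_⟩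
    have := h g hg
    rwa [FreeGroup.mk_toWord] at this

/-- the group topology -/
noncomputable def gt (ok : Ok d Φ) : GroupTopology (FreeGroup X) :=
  letI := (basis ok).topology
  { toTopologicalSpace := (basis ok).topology
    toIsTopologicalGroup := (basis ok).isTopologicalGroup }

theorem nhds_gt (ok : Ok d Φ) (g : FreeGroup X) {ε : ℝ} (hε : 0 < ε) :
    {h | g⁻¹ * h ∈ B d Φ ε} ∈ @nhds _ (gt ok).toTopologicalSpace g := by
  have h := (basis ok).nhds_hasBasis g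
  have h2 := (h.mem_of_mem (i := B d Φ ε) ⟨ε, hε, rfl⟩)
  refine mem_of_superset h2 ?_
  rintro _ ⟨u, hu, rfl⟩
  simpa using hu

theorem of_continuous [TopologicalSpace X] (ok : Ok d Φ)
    (hd : ∀ x, ∀ ε : ℝ, 0 < ε → ∀ᶠ y in 𝓝 x, d x y < ε) (hΦ : ∀ x, ∀ᶠ y in 𝓝 x, Φ y = Φ x) :
    @Continuous X (FreeGroup X) _ (gt ok).toTopologicalSpace FreeGroup.of := by
  letI : TopologicalSpace (FreeGroup X) := (basis ok).topology
  show Continuous (FreeGroup.of : X → FreeGroup X)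
  rw [continuous_iff_continuousAt]
  intro x
  have h := (basis ok).nhds_hasBasis (FreeGroup.of x)
  show Tendsto _ _ _
  rw [h.tendsto_right_iff]
  rintro _ ⟨ε, hε, rfl⟩
  filter_upwards [hd x ε hε, hΦ x] with y hy1 hy2
  refine ⟨(FreeGroup.of x)⁻¹ * FreeGroup.of y, ?_, by simp⟩
  refine ⟨(x, false) :: ([] ++ (y, !false) :: []), d x y + Φ x * 0 + 0, ?_,
    M.cons hy2.symm M.nil M.nil, by simpa using hy1⟩
  simp [FreeGroup.of, FreeGroup.inv_mk, FreeGroup.invRev]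

end Pool.Agent.Q307.Yam
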